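import Pool.Agent.Helper363.Nita.K2.Main

namespace Pool.Agent.Results.MP_b9eae2_al.FullRange

open Pool.Agent.Helper363.Nita

/-- No C-NITA as in the problem has a stopping number `n` with `4 ≤ n ≤ 42`. -/
theorem result {ι A : Type} [CommRing A] [Algebra ℂ A] (C : CNITA ι A) (x y : ι)
    (_hf : C.Faithful x) (_hx : C.bar x ≠ x) (h3 : C.degNat x = 3)
    (h6 : C.b x * C.b x = C.b (C.bar x) + C.b y) (n : ℕ) (h4 : 4 ≤ n) (h42 : n ≤ 42) :
    ¬ C.StoppingNumber x n := by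
  rintro ⟨⟨f, hf⟩, hno⟩
  obtain ⟨G, M, hM⟩ := C.toNG x y h3 h6 (by omega) hf
  obtain ⟨M', hM'⟩ := extend_all h4 h42 M
  exact hno (hM M' hM')

end Pool.Agent.Results.MP_b9eae2_al.FullRange
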